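import Pool.Agent.Run7.h400.GK.StmC

/-!
# Project GK of helper400 (MP_a90b0f_nt): the pieces UNI and KAP (helper227)
-/

set_option autoImplicit false

namespace Run7.h227.GK

open Polynomial Finset Run7.h400.GK

theorem coeff_X_der {O : Type} [CommRing O] (U : PowerSeries O) (n : ℕ) :
    PowerSeries.coeff n (PowerSeries.X * PowerSeries.derivative O U) =
      (n : O) * PowerSeries.coeff n U := by
  cases n with
  | zero => simp
  | succ n =>
    rw [PowerSeries.coeff_succ_X_mul, PowerSeries.coeff_derivative]
    push_cast
    ring

/-- **UNI** -/
theorem t_UNI : S_UNI := by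
  intro O _ _ _ U V hU hV h
  set D := U - V with hD
  have h1 : PowerSeries.X * PowerSeries.derivative O D * V =
      D * (PowerSeries.X * PowerSeries.derivative O V) := by
    rw [hD, map_sub, mul_sub, sub_mul, sub_mul, h]
    ring
  have h2 : ∀ n, PowerSeries.coeff n D = 0 := by
    intro n
    induction n using Nat.strong_induction_on with
    | _ n ih =>
      by_cases hn : n = 0
      · subst hn
        rw [PowerSeries.coeff_zero_eq_constantCoeff_apply, hD, map_sub, hU, hV, sub_self]
      · have h3 := congrArg (PowerSeries.coeff n) h1
        rw [PowerSeries.coeff_mul, PowerSeries.coeff_mul] at h3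
        have e1 : ∑ x ∈ antidiagonal n, PowerSeries.coeff x.1
            (PowerSeries.X * PowerSeries.derivative O D) * PowerSeries.coeff x.2 V =
            (n : O) * PowerSeries.coeff n D := by
          rw [Finset.sum_eq_single (n, 0)]
          · rw [coeff_X_der, PowerSeries.coeff_zero_eq_constantCoeff_apply, hV, mul_one]
          · rintro ⟨i, j⟩ hx hne
            rw [HasAntidiagonal.mem_antidiagonal] at hx
            have hi : i < n := by
              rcases Nat.lt_or_ge i n with h' | h'
              · exact h'
              · exfalso
                apply hne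
                simp only at hx
                rw [Prod.mk.injEq]
                omega
            simp only
            rw [coeff_X_der, ih i hi, mul_zero, zero_mul]
          · intro hx
            exact absurd (HasAntidiagonal.mem_antidiagonal.2 (add_zero n)) hx
        have e2 : ∑ x ∈ antidiagonal n, PowerSeries.coeff x.1 D * PowerSeries.coeff x.2
            (PowerSeries.X * PowerSeries.derivative O V) = 0 := by
          refine Finset.sum_eq_zero ?_
          rintro ⟨i, j⟩ hx
          rw [HasAntidiagonal.mem_antidiagonal] at hx
          simp only at hx ⊢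
          rcases Nat.lt_or_ge i n with h' | h'
          · rw [ih i h', zero_mul]
          · have : j = 0 := by omega
            subst this
            rw [coeff_X_der]
            simp
        rw [e1, e2] at h3
        rcases mul_eq_zero.1 h3 with h4 | h4
        · exact absurd (Nat.cast_eq_zero.1 h4) hn
        · exact h4
  have h5 : D = 0 := PowerSeries.ext fun n => by rw [h2, map_zero]
  exact sub_eq_zero.1 h5

section kap

variable {E : Type} [Field E]

theorem kap_eq {n M : ℕ} (h : PowerSeries E) (f : E[X]) (hM : ∀ i, M ≤ i → f.coeff i = 0) :
    kap n h f = ∑ i ∈ range M, if n ≤ i + 1 then f.coeff i * PowerSeries.coeff (i + 1 - n) h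
      else 0 := by
  unfold kap
  rw [Polynomial.sum_def]
  refine Finset.sum_subset_zero_on_sdiff ?_ ?_ (fun _ _ => rfl)
  · intro i hi
    rw [mem_range]
    by_contra hcon
    exact (mem_support_iff.1 hi) (hM i (not_lt.1 hcon))
  · intro i hi
    have : f.coeff i = 0 := by
      rw [mem_sdiff] at hi
      exact notMem_support_iff.1 hi.2
    rw [this]
    simp

theorem kap_add (n : ℕ) (h : PowerSeries E) (f g : E[X]) :
    kap n h (f + g) = kap n h f + kap n h g := by
  set M := max (f.natDegree + 1) (g.natDegree + 1) with hM
  have hf : ∀ i, M ≤ i → f.coeff i = 0 := fun i hi =>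
    coeff_eq_zero_of_natDegree_lt (by have := le_max_left (f.natDegree + 1) (g.natDegree + 1); omega)
  have hg : ∀ i, M ≤ i → g.coeff i = 0 := fun i hi =>
    coeff_eq_zero_of_natDegree_lt (by have := le_max_right (f.natDegree + 1) (g.natDegree + 1); omega)
  rw [kap_eq h f hf, kap_eq h g hg, kap_eq h (f + g) (M := M)
    (fun i hi => by rw [coeff_add, hf i hi, hg i hi, add_zero]), ← Finset.sum_add_distrib]
  refine Finset.sum_congr rfl fun i _ => ?_
  split_ifs
  · rw [coeff_add]; ring
  · rw [add_zero]

theorem Lam_add {Q : ℕ} (hQ : 1 ≤ Q) (f g : E[X]) : Lam Q (f + g) = Lam Q f + Lam Q g := by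
  ext i
  rw [coeff_add, coeff_Lam hQ, coeff_Lam hQ, coeff_Lam hQ, coeff_add]

end kap

/-- **KAP** -/
theorem t_KAP : S_KAP := by
  intro E _ q n P h hq hn hdeg hfe f
  have hq1 : 1 ≤ q := by omega
  induction f using Polynomial.induction_on' with
  | add f g hf hg => rw [add_mul, Lam_add hq1, kap_add, kap_add, hf, hg]
  | monomial j a =>
    set N := n * (q - 1) with hN
    have hPc : ∀ i, N < i → P.coeff i = 0 := fun i hi =>
      coeff_eq_zero_of_natDegree_lt (by omega)
    have hc : ∀ i, (monomial j a * P).coeff i = if j ≤ i then a * P.coeff (i - j) else 0 := by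
      intro i
      rw [← C_mul_X_pow_eq_monomial, mul_assoc, coeff_C_mul, coeff_X_pow_mul']
      split_ifs
      · rfl
      · rw [mul_zero]
    -- the left side
    have hqn : q * (n - 1) + q - 1 = N + (n - 1) := by
      obtain ⟨m, rfl⟩ : ∃ m, n = m + 1 := ⟨n - 1, by omega⟩
      obtain ⟨r, rfl⟩ : ∃ r, q = r + 1 := ⟨q - 1, by omega⟩
      rw [hN]
      simp only [Nat.add_sub_cancel]
      have : (r + 1) * m + (r + 1) - 1 = (r + 1) * m + r := by omega
      rw [this]; ring
    set M' := j + 1 with hM'
    have hL : kap n h (Lam q (monomial j a * P)) = ∑ l ∈ range M',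
        (if j ≤ q * l + N + (n - 1) then a * P.coeff (q * l + N + (n - 1) - j) else 0) *
          PowerSeries.coeff l h := by
      rw [kap_eq (M := (n - 1) + M') h _ ?_, Finset.sum_range_add]
      · rw [Finset.sum_eq_zero (s := range (n - 1)), zero_add]
        · refine Finset.sum_congr rfl fun l _ => ?_
          rw [if_pos (by omega), coeff_Lam hq1, hc]
          have e1 : q * (n - 1 + l) + q - 1 = q * l + N + (n - 1) := by
            have : q * (n - 1 + l) = q * (n - 1) + q * l := by ring
            omega
          have e2 : n - 1 + l + 1 - n = l := by omega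
          rw [e1, e2]
        · intro i hi
          rw [mem_range] at hi
          rw [if_neg (by omega)]
      · intro i hi
        rw [coeff_Lam hq1, hc]
        split_ifs with h1
        · rw [hPc, mul_zero]
          obtain ⟨l, rfl⟩ : ∃ l, i = n - 1 + M' + l := ⟨i - (n - 1 + M'), by omega⟩
          have e1 : q * (n - 1 + M' + l) = q * (n - 1) + q * M' + q * l := by ring
          have e2 : M' ≤ q * M' := Nat.le_mul_of_pos_left _ (by omega)
          omega
        · rfl
    rw [hL]
    have hR : kap n h (monomial j a) = if n ≤ j + 1 then a * PowerSeries.coeff (j + 1 - n) h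
        else 0 := by
      unfold kap
      rw [sum_monomial_index]
      simp
    rw [hR]
    split_ifs with hj
    · set m := j + 1 - n with hm
      rw [hfe.2 m, Finset.mul_sum]
      have hsub : range (m / q + 1) ⊆ range M' := by
        apply range_subset_range.2
        have := Nat.div_le_self m q
        omega
      rw [← Finset.sum_subset hsub]
      · refine Finset.sum_congr rfl fun l hl => ?_
        rw [mem_range, Nat.lt_succ_iff, Nat.le_div_iff_mul_le (by omega)] at hl
        have hl' : q * l ≤ m := by rw [mul_comm]; exact hl
        by_cases h1 : m - q * l ≤ N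
        · rw [if_pos (by omega), if_pos h1]
          have e1 : q * l + N + (n - 1) - j = N - (m - q * l) := by omega
          rw [e1]; ring
        · rw [if_neg (by omega), if_neg h1]; ring
      · intro l _ hl
        rw [mem_range, not_lt, Nat.succ_le_iff, Nat.div_lt_iff_lt_mul (by omega)] at hl
        have hl' : m < q * l := by rw [mul_comm]; exact hl
        rw [if_pos (by omega), hPc _ (by omega), mul_zero, zero_mul]
    · refine Finset.sum_eq_zero fun l _ => ?_
      rw [if_pos (by omega), hPc _ (by omega), mul_zero, zero_mul]

end Run7.h227.GK
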