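import Pool.Agent.Run7.h400.GK.StmK

/-!
# Project GK of helper400 (MP_a90b0f_nt): the pieces SBR, EXP, GRL (helper227)
-/

set_option autoImplicit false

namespace Run7.h227.GK

open Polynomial Finset Run7.h400.GK

section sbr

variable {E : Type} [Field E]

/-- the substitution as a ring homomorphism -/
noncomputable def sbh (E : Type) [Field E] (q : ℕ) (hq : q - 1 ≠ 0) :
    PowerSeries E →+* LaurentSeries E :=
  (HahnSeries.ofPowerSeries ℤ E).comp
    (((PowerSeries.expand (R := E) (q - 1) hq).toRingHom).comp (PowerSeries.rescale (-1 : E)))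

theorem sbh_apply (q : ℕ) (hq : q - 1 ≠ 0) (h : PowerSeries E) : sbh E q hq h = sb q h := by
  unfold sbh sb
  rw [RingHom.comp_apply, RingHom.comp_apply]
  congr 1
  ext m
  show PowerSeries.coeff m (PowerSeries.expand (q - 1) hq (PowerSeries.rescale (-1) h)) = _
  rw [PowerSeries.coeff_expand, PowerSeries.coeff_mk]
  split_ifs
  · rw [PowerSeries.coeff_rescale]
  · rfl

theorem sb_coeff (q : ℕ) (hq : 2 ≤ q) (h : PowerSeries E) (j : ℕ) :
    (sb q h).coeff (((q : ℤ) - 1) * j) = (-1) ^ j * PowerSeries.coeff j h := by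
  have e1 : ((q : ℤ) - 1) * j = (((q - 1) * j : ℕ) : ℤ) := by
    push_cast [Nat.cast_sub (show 1 ≤ q by omega)]
    ring
  unfold sb
  rw [e1, HahnSeries.ofPowerSeries_apply_coeff, PowerSeries.coeff_mk,
    if_pos (Dvd.intro _ rfl), Nat.mul_div_cancel_left _ (show 0 < q - 1 by omega)]

theorem TT_inv (q : ℕ) : (TT E q)⁻¹ = HahnSeries.single ((q : ℤ) - 1) (-1 : E) := by
  unfold TT
  rw [HahnSeries.inv_single, neg_neg, inv_neg, inv_one]

theorem TT_ne (q : ℕ) : TT E q ≠ 0 := by
  unfold TT
  exact HahnSeries.single_ne_zero (neg_ne_zero.2 one_ne_zero)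

end sbr

/-- **SBR** -/
theorem t_SBR : S_SBR := by
  intro E _ q hq
  have hq1 : q - 1 ≠ 0 := by omega
  have hq2 : (((q - 1 : ℕ)) : ℤ) = (q : ℤ) - 1 := by
    push_cast [Nat.cast_sub (show 1 ≤ q by omega)]; ring
  refine ⟨sbh E q hq1, sbh_apply q hq1, ?_, ?_, ?_, fun h j => by rw [sbh_apply, sb_coeff q hq]⟩
  · rw [TT_inv]
    unfold sbh
    rw [RingHom.comp_apply, RingHom.comp_apply]
    have e1 : PowerSeries.rescale (-1 : E) PowerSeries.X =
        PowerSeries.C (-1 : E) * PowerSeries.X := by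
      ext m
      rw [PowerSeries.coeff_rescale, PowerSeries.coeff_C_mul, PowerSeries.coeff_X]
      split_ifs with h
      · rw [h]; ring
      · simp
    rw [e1, map_mul, map_mul]
    have e2 : (PowerSeries.expand (R := E) (q - 1) hq1).toRingHom (PowerSeries.C (-1 : E)) =
        PowerSeries.C (-1 : E) := PowerSeries.expand_C (q - 1) hq1 _
    have e3 : (PowerSeries.expand (R := E) (q - 1) hq1).toRingHom PowerSeries.X =
        PowerSeries.X ^ (q - 1) := PowerSeries.expand_X (q - 1) hq1
    rw [e2, e3, HahnSeries.ofPowerSeries_C, HahnSeries.ofPowerSeries_X_pow, hq2,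
      HahnSeries.C_apply, HahnSeries.single_mul_single, zero_add, mul_one]
  · intro e
    unfold sbh
    rw [RingHom.comp_apply, RingHom.comp_apply]
    have e1 : PowerSeries.rescale (-1 : E) (PowerSeries.C e) = PowerSeries.C e := by
      ext m
      rw [PowerSeries.coeff_rescale, PowerSeries.coeff_C]
      split_ifs with h
      · rw [h]; ring
      · simp
    have e2 : (PowerSeries.expand (R := E) (q - 1) hq1).toRingHom (PowerSeries.C e) =
        PowerSeries.C e := PowerSeries.expand_C (q - 1) hq1 _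
    rw [e1, e2, HahnSeries.ofPowerSeries_C, LaurentSeries.algebraMap_apply]
  · intro h h' heq
    ext j
    have h1 := congrArg (fun x : LaurentSeries E => x.coeff (((q : ℤ) - 1) * j)) heq
    simp only [sbh_apply, sb_coeff q hq] at h1
    have h2 : ((-1 : E)) ^ j ≠ 0 := pow_ne_zero _ (neg_ne_zero.2 one_ne_zero)
    exact mul_left_cancel₀ h2 h1

theorem algebraMap_tower {Fq E : Type} [Field Fq] [Field E] [Algebra Fq E] (a : Fq) :
    algebraMap E (LaurentSeries E) (algebraMap Fq E a) = algebraMap Fq (LaurentSeries E) a := by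
  rw [HahnSeries.algebraMap_apply', HahnSeries.algebraMap_apply', PowerSeries.algebraMap_apply,
    PowerSeries.algebraMap_apply]
  rfl

/-- **EXP** -/
theorem t_EXP (hS : S_SBR) : S_EXP := by
  intro Fq E _ _ _ q c hq hc
  obtain ⟨f, hf, hX, hC, -, -⟩ := hS E q hq
  set T := TT E q with hT
  have hT0 : T ≠ 0 := TT_ne q
  have hXT : f PowerSeries.X = T⁻¹ := hX
  set dg := c.natDegree with hdg
  set N : PowerSeries Fq := ∑ i ∈ range (dg + 1), PowerSeries.monomial (dg - i) ((i : Fq) * c.coeff i)
    with hN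
  set D : PowerSeries Fq := ∑ i ∈ range (dg + 1), PowerSeries.monomial (dg - i) (c.coeff i) with hD
  have hps : (PowerSeries.mk fun m => algebraMap Fq E (ps m c)) =
      PowerSeries.map (algebraMap Fq E) (N * D⁻¹) := by
    ext m
    rw [PowerSeries.coeff_mk, PowerSeries.coeff_map]
    rfl
  have hD0 : PowerSeries.constantCoeff D = 1 := by
    rw [← PowerSeries.coeff_zero_eq_constantCoeff_apply, hD, map_sum,
      Finset.sum_eq_single dg]
    · rw [PowerSeries.coeff_monomial, if_pos (by omega)]
      exact hc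
    · intro i hi hne
      rw [mem_range] at hi
      rw [PowerSeries.coeff_monomial, if_neg (by omega)]
    · intro h; exact absurd (mem_range.2 (Nat.lt_succ_self _)) h
  have hDD : D * D⁻¹ = 1 := PowerSeries.mul_inv_cancel D (by rw [hD0]; exact one_ne_zero)
  have hmon : ∀ (k : ℕ) (a : Fq), f (PowerSeries.map (algebraMap Fq E) (PowerSeries.monomial k a)) =
      algebraMap Fq (LaurentSeries E) a * (T⁻¹) ^ k := by
    intro k a
    have e1 : PowerSeries.map (algebraMap Fq E) (PowerSeries.monomial k a) =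
        PowerSeries.C (algebraMap Fq E a) * PowerSeries.X ^ k := by
      ext m
      rw [PowerSeries.coeff_map, PowerSeries.coeff_monomial, PowerSeries.coeff_C_mul,
        PowerSeries.coeff_X_pow]
      split_ifs
      · rw [mul_one]
      · rw [map_zero, mul_zero]
    rw [e1, map_mul, map_pow, hXT, hC, algebraMap_tower]
  have hTk : ∀ i ∈ range (dg + 1), (T⁻¹) ^ (dg - i) * T ^ dg = T ^ i := by
    intro i hi
    rw [mem_range] at hi
    have : T ^ dg = T ^ (dg - i) * T ^ i := by rw [← pow_add]; congr 1; omega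
    rw [this, ← mul_assoc, ← mul_pow, inv_mul_cancel₀ hT0, one_pow, one_mul]
  have h1 : aeval T c = f (PowerSeries.map (algebraMap Fq E) D) * T ^ dg := by
    rw [aeval_eq_sum_range, hD, map_sum, map_sum, Finset.sum_mul]
    refine Finset.sum_congr rfl fun i hi => ?_
    rw [hmon, mul_assoc, hTk i hi, Algebra.smul_def]
  have h2 : aeval T (derivative c) * T = f (PowerSeries.map (algebraMap Fq E) N) * T ^ dg := by
    have e1 : aeval T (derivative c) * T = ∑ i ∈ range (dg + 1),
        algebraMap Fq (LaurentSeries E) ((i : Fq) * c.coeff i) * T ^ i := by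
      have e2 : derivative c = ∑ i ∈ range (dg + 1), C (c.coeff i * i) * X ^ (i - 1) := by
        rw [derivative_apply, Polynomial.sum_over_range]
        · intro n; simp
      rw [e2, map_sum, Finset.sum_mul]
      refine Finset.sum_congr rfl fun i _ => ?_
      rw [map_mul, map_pow, aeval_C, aeval_X]
      rcases Nat.eq_zero_or_pos i with hi | hi
      · subst hi; simp
      · rw [mul_assoc, ← pow_succ, Nat.sub_add_cancel hi, mul_comm (c.coeff i)]
    rw [e1, hN, map_sum, map_sum, Finset.sum_mul]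
    refine Finset.sum_congr rfl fun i hi => ?_
    rw [hmon, mul_assoc, hTk i hi]
  have h3 : f (PowerSeries.map (algebraMap Fq E) D) *
      f (PowerSeries.map (algebraMap Fq E) D⁻¹) = 1 := by
    rw [← map_mul, ← map_mul, hDD, map_one, map_one]
  have h4 : aeval T c ≠ 0 := by
    rw [h1]
    exact mul_ne_zero (left_ne_zero_of_mul_eq_one h3) (pow_ne_zero _ hT0)
  rw [hps, ← hf, map_mul, map_mul, map_mul, hXT, div_eq_iff h4, h1]
  have h5 : aeval T (derivative c) = f (PowerSeries.map (algebraMap Fq E) N) * T ^ dg * T⁻¹ := by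
    rw [← h2, mul_assoc, mul_inv_cancel₀ hT0, mul_one]
  rw [h5]
  linear_combination (-(f (PowerSeries.map (algebraMap Fq E) N) * T ^ dg * T⁻¹)) * h3

section grl

variable {E : Type} [Field E]

theorem pow_frob {p n q : ℕ} [ExpChar E p] (hp0 : p ≠ 0) (hq0 : q ≠ 0) (hqp : q = p ^ n)
    (h : PowerSeries E) :
    h ^ q = PowerSeries.map (iterateFrobenius E p n) (PowerSeries.expand q hq0 h) := by
  subst hqp
  exact (MvPowerSeries.map_iterateFrobenius_expand (R := E) p hp0 h n).symm

/-- the power of a Gauss series -/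
theorem Hth_pow {Fq : Type} [Field Fq] [Fintype Fq] [Algebra Fq E] (hH : S_HTH) (q : ℕ) (t : E)
    (hq : q = Fintype.card Fq) :
    Hth q t ^ q * (1 - PowerSeries.C (t ^ q) * PowerSeries.X) = Hth q (t ^ q) := by
  classical
  obtain ⟨n, hp, hn⟩ := FiniteField.card Fq (ringChar Fq)
  set p := ringChar Fq with hpdef
  have : Fact p.Prime := ⟨hp⟩
  have : CharP Fq p := ringChar.charP Fq
  have : CharP E p := charP_of_injective_algebraMap (algebraMap Fq E).injective p
  have : ExpChar E p := ExpChar.prime hp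
  have hqp : q = p ^ (n : ℕ) := by rw [hq, hn]
  have hq2 : 2 ≤ q := by rw [hq]; exact Fintype.one_lt_card
  have hq0 : q ≠ 0 := by omega
  have hneg : ∀ x : E, (-x) ^ q = -(x ^ q) := by
    intro x
    rw [hqp]
    rw [neg_pow, neg_one_pow_expChar_pow, neg_one_mul]
  have hcoef : ∀ m, PowerSeries.coeff m (Hth q t) ^ q = PowerSeries.coeff m (Hth q (t ^ q)) := by
    intro m
    unfold Hth
    rw [PowerSeries.coeff_mk, PowerSeries.coeff_mk]
    split_ifs
    · rw [← pow_mul, mul_comm, pow_mul, hneg]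
    · exact zero_pow hq0
  have hpow : Hth q t ^ q = PowerSeries.expand q hq0 (Hth q (t ^ q)) := by
    rw [pow_frob hp.ne_zero hq0 hqp]
    ext m
    rw [PowerSeries.coeff_map, PowerSeries.coeff_expand, PowerSeries.coeff_expand]
    split_ifs
    · rw [iterateFrobenius_def, ← hqp, hcoef]
    · rw [map_zero]
  rw [hpow]
  have hF := (hH E q {t ^ q} hq2).2
  simp only [Multiset.map_singleton, Multiset.prod_singleton, Multiset.card_singleton] at hF
  ext m
  rw [hF m, mul_sub, mul_one, map_sub, mul_comm (PowerSeries.C (t ^ q)), ← mul_assoc]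
  rw [PowerSeries.coeff_mul_C, PowerSeries.coeff_expand]
  -- the right side
  have hsum : ∑ j ∈ range (m / q + 1), (if m - q * j ≤ 1 then
      (X - C (t ^ q) : E[X]).coeff (1 - (m - q * j)) else 0) *
        PowerSeries.coeff j (Hth q (t ^ q)) =
      (if m - q * (m / q) ≤ 1 then (X - C (t ^ q) : E[X]).coeff (1 - (m - q * (m / q))) else 0) *
        PowerSeries.coeff (m / q) (Hth q (t ^ q)) := by
    rw [Finset.sum_range_succ, Finset.sum_eq_zero, zero_add]
    intro j hj
    rw [mem_range] at hj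
    have h1 : q * (j + 1) ≤ m := by
      have := Nat.mul_le_mul_left q (Nat.succ_le_iff.2 hj)
      exact this.trans (Nat.mul_div_le m q)
    rw [if_neg (show ¬ m - q * j ≤ 1 by rw [mul_add] at h1; omega), zero_mul]
  rw [hsum]
  have hmod : m - q * (m / q) = m % q := by
    have := Nat.div_add_mod m q
    omega
  rw [hmod]
  have c1 : (X - C (t ^ q) : E[X]).coeff 1 = 1 := by
    rw [coeff_sub, coeff_X_one, coeff_C, if_neg one_ne_zero, sub_zero]
  have c0 : (X - C (t ^ q) : E[X]).coeff 0 = -(t ^ q) := by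
    rw [coeff_sub, coeff_X_zero, coeff_C_zero, zero_sub]
  rcases Nat.lt_or_ge (m % q) 2 with hlt | hge
  · rw [if_pos (show m % q ≤ 1 by omega)]
    obtain h0 | h0 : m % q = 0 ∨ m % q = 1 := by omega
    · rw [h0, if_pos (show q ∣ m from Nat.dvd_of_mod_eq_zero h0)]
      have e1 : PowerSeries.coeff m (PowerSeries.expand q hq0 (Hth q (t ^ q)) * PowerSeries.X)
          = 0 := by
        cases m with
        | zero => simp
        | succ m =>
          rw [PowerSeries.coeff_succ_mul_X, PowerSeries.coeff_expand, if_neg]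
          intro hd
          have h5 := Nat.dvd_of_mod_eq_zero h0
          have := (Nat.dvd_add_right hd).1 h5
          have := Nat.le_of_dvd one_pos this
          omega
      rw [e1, zero_mul, sub_zero, Nat.sub_zero, c1, one_mul]
    · rw [h0, if_neg (show ¬ q ∣ m by intro hd; have := Nat.mod_eq_zero_of_dvd hd; omega)]
      obtain ⟨m', rfl⟩ : ∃ m', m = m' + 1 := ⟨m - 1, by
        have : m ≠ 0 := by rintro rfl; simp at h0
        omega⟩
      have h6 : m' + 1 = q * ((m' + 1) / q) + 1 := by
        have := Nat.div_add_mod (m' + 1) q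
        omega
      have h7 : m' = q * ((m' + 1) / q) := by omega
      have h8 : m' / q = (m' + 1) / q := by
        conv_lhs => rw [h7]
        exact Nat.mul_div_cancel_left _ (by omega)
      rw [PowerSeries.coeff_succ_mul_X, PowerSeries.coeff_expand,
        if_pos (Dvd.intro _ h7.symm), h8, Nat.sub_self, c0]
      ring
  · rw [if_neg (show ¬ m % q ≤ 1 by omega), zero_mul,
      if_neg (show ¬ q ∣ m by intro hd; have := Nat.mod_eq_zero_of_dvd hd; omega)]
    have e1 : PowerSeries.coeff m (PowerSeries.expand q hq0 (Hth q (t ^ q)) * PowerSeries.X)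
        = 0 := by
      cases m with
      | zero => simp
      | succ m =>
        rw [PowerSeries.coeff_succ_mul_X, PowerSeries.coeff_expand, if_neg]
        rintro ⟨k, rfl⟩
        have : (q * k + 1) % q = 1 := by
          rw [Nat.mul_add_mod]; exact Nat.mod_eq_of_lt (by omega)
        omega
    rw [e1]; ring

end grl

/-- **GRL** -/
theorem t_GRL (hH : S_HTH) (hS : S_SBR) : S_GRL := by
  intro Fq E _ _ _ _ q δ t hq hδ
  obtain ⟨n, hp, hn⟩ := FiniteField.card Fq (ringChar Fq)
  set p := ringChar Fq with hpdef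
  have : Fact p.Prime := ⟨hp⟩
  have : CharP Fq p := ringChar.charP Fq
  have : CharP E p := charP_of_injective_algebraMap (algebraMap Fq E).injective p
  have : ExpChar E p := ExpChar.prime hp
  have hqp : q = p ^ (n : ℕ) := by rw [hq, hn]
  have hq2 : 2 ≤ q := by rw [hq]; exact Fintype.one_lt_card
  obtain ⟨f, hf, hX, hC, hinj, -⟩ := hS E q hq2
  have hHc : ∀ s : E, PowerSeries.constantCoeff (Hth q s) = 1 := by
    intro s
    have := (hH E q {s} hq2).1
    simpa using this
  have hfne : ∀ s : E, f (Hth q s) ≠ 0 := by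
    intro s h0
    have h1 : Hth q s = 0 := hinj (by rw [h0, map_zero])
    have h2 := hHc s
    rw [h1, map_zero] at h2
    exact zero_ne_one h2
  have hne : HahnSeries.single (-1 : ℤ) (-δ⁻¹) ≠ 0 :=
    HahnSeries.single_ne_zero (neg_ne_zero.2 (inv_ne_zero hδ))
  have hT0 : TT E q ≠ 0 := TT_ne q
  unfold gg
  rw [← hf, ← hf]
  refine ⟨mul_ne_zero hne (inv_ne_zero (hfne t)), ?_⟩
  have h1 := congrArg f (Hth_pow (Fq := Fq) hH q t hq)
  rw [map_mul, map_pow, map_sub, map_one, map_mul, hX, hC] at h1
  rw [mul_pow, inv_pow, ← h1, mul_inv]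
  set a := algebraMap E (LaurentSeries E) (t ^ q) with ha
  set T := TT E q with hT
  have hb : (1 - a * T⁻¹) ≠ 0 := by
    intro h0
    rw [h0, mul_zero] at h1
    exact hfne _ h1.symm
  have h2 : (a - T) * (1 - a * T⁻¹)⁻¹ = -T := by
    rw [mul_inv_eq_iff_eq_mul₀ hb]
    field_simp
    ring
  have h3 : HahnSeries.single (-1 : ℤ) (-δ⁻¹) ^ q =
      -T * HahnSeries.single (-1 : ℤ) (-(δ ^ q)⁻¹) := by
    rw [HahnSeries.single_pow, hT]
    unfold TT
    rw [← HahnSeries.single_neg, HahnSeries.single_mul_single]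
    have e1 : q • (-1 : ℤ) = -((q : ℤ) - 1) + -1 := by
      rw [nsmul_eq_mul]; ring
    have e2 : (-δ⁻¹) ^ q = - -1 * -(δ ^ q)⁻¹ := by
      rw [hqp, neg_pow, neg_one_pow_expChar_pow, neg_one_mul, inv_pow, neg_neg, one_mul]
    rw [e1, e2]
  rw [h3]
  calc -T * HahnSeries.single (-1 : ℤ) (-(δ ^ q)⁻¹) * (f (Hth q t) ^ q)⁻¹
      = ((a - T) * (1 - a * T⁻¹)⁻¹) * HahnSeries.single (-1 : ℤ) (-(δ ^ q)⁻¹) *
        (f (Hth q t) ^ q)⁻¹ := by rw [h2]
    _ = _ := by ring

end Run7.h227.GK
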